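import Mathlib

/-!
# Mean value inequalities for entire functions on `ℂ^n`, all exponents
-/

set_option autoImplicit false

namespace Pool.Agent.U934.Fock

open MeasureTheory Metric Set
open scoped ENNReal NNReal

/-- `ℂ^n` with the Euclidean norm. -/
abbrev Cn (n : ℕ) : Type := EuclideanSpace ℂ (Fin n)

/-- multiplication by a complex number of modulus one -/
noncomputable def rot (n : ℕ) (c : ℂ) (hc : ‖c‖ = 1) : Cn n ≃ₗᵢ[ℝ] Cn n :=
  { toFun := fun v => c • v
    map_add' := fun v w => smul_add c v w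
    map_smul' := fun a v => by
      simp only [RingHom.id_apply]
      rw [smul_comm]
    invFun := fun v => c⁻¹ • v
    left_inv := fun v => by
      have : c ≠ 0 := by rintro rfl; simp at hc
      simp [smul_smul, inv_mul_cancel₀ this]
    right_inv := fun v => by
      have : c ≠ 0 := by rintro rfl; simp at hc
      simp [smul_smul, mul_inv_cancel₀ this]
    norm_map' := fun v => by
      change ‖c • v‖ = ‖v‖
      rw [norm_smul, hc, one_mul] }

theorem rot_apply {n : ℕ} {c : ℂ} (hc : ‖c‖ = 1) (v : Cn n) : rot n c hc v = c • v := rfl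

/-- rotation invariance of integrals over balls centered at the origin -/
theorem lintegral_rot {n : ℕ} {c : ℂ} (hc : ‖c‖ = 1) (r : ℝ) {F : Cn n → ℝ≥0∞}
    (hF : Measurable F) :
    ∫⁻ v in ball (0 : Cn n) r, F (c • v) = ∫⁻ v in ball (0 : Cn n) r, F v := by
  have h := (rot n c hc).measurePreserving
  rw [← lintegral_indicator measurableSet_ball, ← lintegral_indicator measurableSet_ball]
  rw [← h.lintegral_comp (hF.indicator measurableSet_ball)]
  apply lintegral_congr
  intro v
  have : (rot n c hc v ∈ ball (0 : Cn n) r) ↔ v ∈ ball (0 : Cn n) r := by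
    simp only [mem_ball, dist_zero_right, rot_apply, norm_smul, hc, one_mul]
  by_cases hv : v ∈ ball (0 : Cn n) r
  · rw [indicator_of_mem hv, indicator_of_mem (this.2 hv), rot_apply]
  · rw [indicator_of_notMem hv, indicator_of_notMem (fun h => hv (this.1 h))]

theorem point_le {n : ℕ} {f : Cn n → ℂ} (hf : Differentiable ℂ f) (u v : Cn n) :
    ‖f u‖ₑ * ENNReal.ofReal (2 * Real.pi) ≤
      ∫⁻ θ in Ioc (0 : ℝ) (2 * Real.pi), ‖f (u + circleMap 0 1 θ • v)‖ₑ := by
  have h1 : Differentiable ℂ (fun z : ℂ => f (u + z • v)) :=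
    hf.comp ((differentiable_id.smul_const v).const_add u)
  have h2 := (h1.diffContOnCl (s := ball (0 : ℂ) |1|)).circleAverage
  rw [Real.circleAverage_def] at h2
  simp only [zero_smul, add_zero] at h2
  have hpi : (0 : ℝ) < 2 * Real.pi := by positivity
  rw [intervalIntegral.integral_of_le hpi.le] at h2
  have h3 : ‖f u‖ₑ = ENNReal.ofReal ((2 * Real.pi)⁻¹) *
      ‖∫ θ in Ioc (0 : ℝ) (2 * Real.pi), f (u + circleMap 0 1 θ • v)‖ₑ := by
    rw [← h2, enorm_smul, Real.enorm_of_nonneg (by positivity)]
  rw [h3, mul_comm, ← mul_assoc, ← ENNReal.ofReal_mul hpi.le, mul_inv_cancel₀ hpi.ne',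
    ENNReal.ofReal_one, one_mul]
  exact enorm_integral_le_lintegral_enorm _

/-- the mean value inequality on balls -/
theorem mean_ball {n : ℕ} {f : Cn n → ℂ} (hf : Differentiable ℂ f) (u : Cn n) (r : ℝ) :
    ‖f u‖ₑ * volume (ball (0 : Cn n) r) ≤ ∫⁻ v in ball u r, ‖f v‖ₑ := by
  have hpi : (0 : ℝ) < 2 * Real.pi := by positivity
  have hpi0 : ENNReal.ofReal (2 * Real.pi) ≠ 0 := by simpa using hpi
  have hc : Continuous (fun x : ℝ × Cn n => ‖f (u + circleMap 0 1 x.1 • x.2)‖ₑ) := by
    apply Continuous.enorm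
    apply hf.continuous.comp
    have : Continuous (fun x : ℝ × Cn n => circleMap 0 1 x.1) :=
      (continuous_circleMap 0 1).comp continuous_fst
    fun_prop
  have h1 : ∫⁻ v in ball (0 : Cn n) r, ‖f u‖ₑ * ENNReal.ofReal (2 * Real.pi) ≤
      ∫⁻ v in ball (0 : Cn n) r, ∫⁻ θ in Ioc (0 : ℝ) (2 * Real.pi),
        ‖f (u + circleMap 0 1 θ • v)‖ₑ :=
    lintegral_mono fun v => point_le hf u v
  rw [lintegral_lintegral_swap] at h1
  swap
  · exact (hc.comp continuous_swap).measurable.aemeasurable
  have h2 : ∀ θ : ℝ, ∫⁻ v in ball (0 : Cn n) r, ‖f (u + circleMap 0 1 θ • v)‖ₑ =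
      ∫⁻ v in ball (0 : Cn n) r, ‖f (u + v)‖ₑ := by
    intro θ
    have hn : ‖circleMap 0 1 θ‖ = 1 := by simp
    have hm : Measurable (fun v : Cn n => ‖f (u + v)‖ₑ) := by
      have : Continuous (fun v : Cn n => ‖f (u + v)‖ₑ) :=
        (hf.continuous.comp (continuous_const.add continuous_id)).enorm
      exact this.measurable
    exact lintegral_rot hn r hm
  simp only [h2] at h1
  rw [lintegral_const, lintegral_const] at h1
  simp only [Measure.restrict_apply MeasurableSet.univ, univ_inter, Real.volume_Ioc, sub_zero] at h1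
  rw [mul_right_comm] at h1
  have h3 := (ENNReal.mul_le_mul_iff_left hpi0 ENNReal.ofReal_ne_top).1 h1
  refine h3.trans (le_of_eq ?_)
  have h4 : MeasurePreserving (fun v : Cn n => u + v) volume volume :=
    measurePreserving_add_left volume u
  rw [← lintegral_indicator measurableSet_ball, ← lintegral_indicator measurableSet_ball]
  have hm : Measurable ((ball u r).indicator fun v : Cn n => ‖f v‖ₑ) :=
    (hf.continuous.enorm.measurable).indicator measurableSet_ball
  rw [← h4.lintegral_comp hm]
  apply lintegral_congr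
  intro v
  have : (u + v ∈ ball u r) ↔ v ∈ ball (0 : Cn n) r := by
    simp [mem_ball, dist_eq_norm]
  by_cases hv : v ∈ ball (0 : Cn n) r
  · rw [indicator_of_mem hv, indicator_of_mem (this.2 hv)]
  · rw [indicator_of_notMem hv, indicator_of_notMem (fun h => hv (this.1 h))]

end Pool.Agent.U934.Fock
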