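import Pool.Agent.U934.Fock.Weight

/-!
# From the radial derivative to the function
-/

set_option autoImplicit false

namespace Pool.Agent.U934.Fock

open MeasureTheory Metric Set Filter Topology
open scoped ENNReal NNReal

variable {n : ℕ}

/-- the radial derivative `Rf(z) = ∑ z_k ∂f/∂z_k = f'(z) z` -/
noncomputable def radial (f : Cn n → ℂ) : Cn n → ℂ := fun z => fderiv ℂ f z z

/-- the scaling factor `√(m/(m+1))` -/
noncomputable def sc (m : ℕ) : ℝ := Real.sqrt ((m : ℝ) / (m + 1))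

theorem sc_sq (m : ℕ) : sc m ^ 2 = (m : ℝ) / (m + 1) := Real.sq_sqrt (by positivity)

theorem sc_pos {m : ℕ} (hm : 1 ≤ m) : 0 < sc m := by
  have : (0 : ℝ) < m := by exact_mod_cast hm
  exact Real.sqrt_pos.2 (by positivity)

theorem sc_le (m : ℕ) : sc m ≤ 1 := by
  apply Real.sqrt_le_one.2
  rw [div_le_one (by positivity)]
  linarith

theorem sc_ge {m : ℕ} (hm : 1 ≤ m) : (m : ℝ) / (m + 1) ≤ sc m := by
  rw [← sc_sq]
  nlinarith [sc_pos hm, sc_le m]

theorem one_sub_sc {m : ℕ} (hm : 1 ≤ m) : 1 - sc m ≤ 1 / (m + 1) := by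
  have h := sc_ge hm
  have : (m : ℝ) / (m + 1) = 1 - 1 / (m + 1) := by field_simp; ring
  linarith

theorem sc_ratio {m : ℕ} (hm : 1 ≤ m) : (1 - sc m) / sc m ≤ 1 / m := by
  have h0 : (0 : ℝ) < m := by exact_mod_cast hm
  have h1 := sc_pos hm
  have h2 := sc_ge hm
  rw [div_le_div_iff₀ h1 h0]
  rw [div_le_iff₀ (by positivity)] at h2
  nlinarith

theorem sc_mem {m : ℕ} {z : Cn n} (hz : z ∈ shell n (m + 1)) :
    sc m • z ∈ shell n m := by
  have h1 := hz.1
  have h2 := hz.2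
  push_cast at h1 h2
  have e : ‖sc m • z‖ ^ 2 = (m : ℝ) / (m + 1) * ‖z‖ ^ 2 := by
    rw [norm_smul, mul_pow, Real.norm_eq_abs, sq_abs, sc_sq]
  have hm : (0 : ℝ) ≤ m := by positivity
  constructor
  · rw [e, div_mul_eq_mul_div, le_div_iff₀ (by positivity)]
    nlinarith
  · rw [e, div_mul_eq_mul_div, div_lt_iff₀ (by positivity)]
    nlinarith

theorem sc_close {m : ℕ} (hm : 1 ≤ m) {z : Cn n} (hz : z ∈ shell n (m + 1)) {t : ℝ}
    (ht : t ∈ Icc (sc m) 1) : t • z ∈ closedBall z (rad (m + 1)) := by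
  have h1 : (1 : ℝ) ≤ m := by exact_mod_cast hm
  have h2 := rad_mul (n := n) (by omega : 1 ≤ m + 1) hz
  have h3 := rad_pos (by omega : 1 ≤ m + 1)
  have h4 : rad (m + 1) ^ 2 = 4 / (m + 1) := by
    unfold rad
    rw [div_pow, Real.sq_sqrt (by positivity)]
    push_cast
    norm_num
  rw [mem_closedBall, dist_eq_norm]
  have e : t • z - z = (t - 1) • z := by rw [sub_smul, one_smul]
  rw [e, norm_smul, Real.norm_eq_abs, abs_sub_comm, abs_of_nonneg (by linarith [ht.2])]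
  have h5 : 1 - t ≤ 1 / (m + 1) := by linarith [ht.1, one_sub_sc hm]
  have h6 : (1 : ℝ) / (m + 1) = rad (m + 1) ^ 2 / 4 := by
    rw [h4]; field_simp
  calc (1 - t) * ‖z‖ ≤ (rad (m + 1) ^ 2 / 4) * ‖z‖ := by
        rw [← h6]; gcongr
    _ = rad (m + 1) / 4 * (rad (m + 1) * ‖z‖) := by ring
    _ ≤ rad (m + 1) / 4 * 3 := by gcongr
    _ ≤ _ := by linarith

theorem wt_scale {α : ℝ} (hα : 0 ≤ α) (k : ℕ) {m : ℕ} {z : Cn n}
    (hz : z ∈ shell n (m + 1)) :
    wt α k z ≤ Real.exp (-(α / 2)) * wt α k (sc m • z) := by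
  unfold wt
  have e : ‖sc m • z‖ ^ 2 = (m : ℝ) / (m + 1) * ‖z‖ ^ 2 := by
    rw [norm_smul, mul_pow, Real.norm_eq_abs, sq_abs, sc_sq]
  have h1 := hz.1
  push_cast at h1
  have h2 : ‖sc m • z‖ ^ 2 ≤ ‖z‖ ^ 2 - 1 := by
    have e2 : (m : ℝ) / (m + 1) * ‖z‖ ^ 2 = ‖z‖ ^ 2 - ‖z‖ ^ 2 / (m + 1) := by
      field_simp; ring
    rw [e, e2]
    have : 1 ≤ ‖z‖ ^ 2 / (m + 1) := by
      rw [le_div_iff₀ (by positivity)]; linarith
    linarith
  rw [← mul_div_assoc, ← Real.exp_add]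
  apply div_le_div₀ (by positivity)
  · apply Real.exp_le_exp.2
    nlinarith [mul_le_mul_of_nonneg_left h2 hα]
  · positivity
  · apply pow_le_pow_left₀ (by positivity)
    linarith

/-- the pointwise comparison of `f` at `z` and at the scaled point -/
theorem point_scale {α : ℝ} (hα : 0 ≤ α) (k : ℕ) {f : Cn n → ℂ} (hf : Differentiable ℂ f)
    (hR : Continuous (radial f)) {m : ℕ} (hm : 1 ≤ m) {z : Cn n} (hz : z ∈ shell n (m + 1)) :
    ∃ t ∈ Icc (sc m) 1, wt α k z * ‖f z‖ ≤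
      Real.exp (-(α / 2)) * (wt α k (sc m • z) * ‖f (sc m • z)‖) +
        4 * (wt α (k + 1) z * ‖radial f (t • z)‖) := by
  have h0 : (1 : ℝ) ≤ m := by exact_mod_cast hm
  have hs := sc_pos hm
  have hs1 := sc_le m
  have hcont : ContinuousOn (fun t : ℝ => ‖radial f (t • z)‖) (Icc (sc m) 1) := by
    apply Continuous.continuousOn
    exact (hR.comp (by fun_prop)).norm
  obtain ⟨t, ht, hmax⟩ := isCompact_Icc.exists_isMaxOn ⟨1, hs1, le_rfl⟩ hcont
  refine ⟨t, ht, ?_⟩
  set S := ‖radial f (t • z)‖ with hS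
  have hmax' : ∀ t' ∈ Icc (sc m) 1, ‖radial f (t' • z)‖ ≤ S := fun t' h' => hmax h'
  have hder : ∀ x ∈ Icc (sc m) 1, HasDerivWithinAt (fun x : ℝ => f (x • z))
      (fderiv ℂ f (x • z) z) (Icc (sc m) 1) x := by
    intro x _
    have h1 : HasFDerivAt f ((fderiv ℂ f (x • z)).restrictScalars ℝ) (x • z) :=
      (hf (x • z)).hasFDerivAt.restrictScalars ℝ
    have h2 : HasDerivAt (fun x : ℝ => x • z) z x := by
      simpa using (hasDerivAt_id x).smul_const z
    exact (h1.comp_hasDerivAt x h2).hasDerivWithinAt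
  have hbd : ∀ x ∈ Icc (sc m) 1, ‖fderiv ℂ f (x • z) z‖ ≤ S / sc m := by
    intro x hx
    have hx0 : 0 < x := lt_of_lt_of_le hs hx.1
    have h1 := hmax' x hx
    have h2 : radial f (x • z) = (x : ℂ) * fderiv ℂ f (x • z) z := by
      unfold radial
      have : x • z = (x : ℂ) • z := by
        rw [Complex.coe_smul]
      conv_lhs => rw [this]
      rw [ContinuousLinearMap.map_smul, smul_eq_mul, ← this]
    rw [h2, norm_mul, Complex.norm_real, Real.norm_eq_abs, abs_of_pos hx0] at h1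
    rw [le_div_iff₀ hs]
    calc ‖fderiv ℂ f (x • z) z‖ * sc m ≤ ‖fderiv ℂ f (x • z) z‖ * x := by
          gcongr; exact hx.1
      _ ≤ S := by rw [mul_comm]; exact h1
  have hdiff := Convex.norm_image_sub_le_of_norm_hasDerivWithin_le hder hbd (convex_Icc _ _)
    (⟨le_rfl, hs1⟩ : sc m ∈ Icc (sc m) 1) (⟨hs1, le_rfl⟩ : (1 : ℝ) ∈ Icc (sc m) 1)
  rw [one_smul, Real.norm_eq_abs, abs_of_nonneg (by linarith : 0 ≤ 1 - sc m)] at hdiff
  have hS0 : 0 ≤ S := norm_nonneg _
  have h1 : ‖f z‖ ≤ ‖f (sc m • z)‖ + S * ((1 - sc m) / sc m) := by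
    have h2 : ‖f z‖ ≤ ‖f (sc m • z)‖ + ‖f z - f (sc m • z)‖ := by
      have := norm_add_le (f (sc m • z)) (f z - f (sc m • z))
      simpa using this
    have h3 : S / sc m * (1 - sc m) = S * ((1 - sc m) / sc m) := by ring
    linarith
  have h2 : wt α k z * ((1 - sc m) / sc m) ≤ 4 * wt α (k + 1) z := by
    have e : wt α k z = (1 + ‖z‖ ^ 2) * wt α (k + 1) z := by
      unfold wt; field_simp; ring
    rw [e]
    have h3 := sc_ratio hm
    have h4 := hz.2
    push_cast at h4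
    have h5 : (1 + ‖z‖ ^ 2) * ((1 - sc m) / sc m) ≤ 4 := by
      calc (1 + ‖z‖ ^ 2) * ((1 - sc m) / sc m) ≤ (1 + ‖z‖ ^ 2) * (1 / m) := by gcongr
        _ ≤ 4 := by
          rw [mul_one_div, div_le_iff₀ (by linarith)]
          linarith
    calc (1 + ‖z‖ ^ 2) * wt α (k + 1) z * ((1 - sc m) / sc m)
        = ((1 + ‖z‖ ^ 2) * ((1 - sc m) / sc m)) * wt α (k + 1) z := by ring
      _ ≤ 4 * wt α (k + 1) z := mul_le_mul_of_nonneg_right h5 (wt_pos _ _ _).le
  have hw := wt_scale hα k hz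
  have hw0 := (wt_pos α k z).le
  calc wt α k z * ‖f z‖ ≤ wt α k z * (‖f (sc m • z)‖ + S * ((1 - sc m) / sc m)) := by gcongr
    _ = wt α k z * ‖f (sc m • z)‖ + (wt α k z * ((1 - sc m) / sc m)) * S := by ring
    _ ≤ (Real.exp (-(α / 2)) * wt α k (sc m • z)) * ‖f (sc m • z)‖ +
          (4 * wt α (k + 1) z) * S := by gcongr
    _ = _ := by ring

/-- quasi-triangle inequality with constant close to one -/
theorem split_pow {p : ℝ} (hp : 0 < p) {a b η : ℝ} (hη : 0 < η) :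
    ENNReal.ofReal (a + b) ^ p ≤ ENNReal.ofReal ((1 + η) * a) ^ p +
      ENNReal.ofReal ((1 + 1 / η) * b) ^ p := by
  rcases le_total b (η * a) with h | h
  · apply le_add_right
    apply ENNReal.rpow_le_rpow _ hp.le
    apply ENNReal.ofReal_le_ofReal
    linarith
  · apply le_add_left
    apply ENNReal.rpow_le_rpow _ hp.le
    apply ENNReal.ofReal_le_ofReal
    have : a ≤ 1 / η * b := by
      rw [one_div, ← div_eq_inv_mul, le_div_iff₀ hη]; linarith
    linarith

theorem scale_int {m : ℕ} (hm : 1 ≤ m) {H : Cn n → ℝ≥0∞} (hH : Measurable H) :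
    ∫⁻ z in shell n (m + 1), H (sc m • z) ≤
      ENNReal.ofReal ((sc m ^ dimR n)⁻¹) * ∫⁻ z in shell n m, H z := by
  have hs := sc_pos hm
  have hmap := Measure.map_addHaar_smul (volume : Measure (Cn n)) hs.ne'
  have h1 : ∫⁻ z in shell n (m + 1), H (sc m • z) ≤
      ∫⁻ z : Cn n, (shell n m).indicator H (sc m • z) := by
    rw [← lintegral_indicator (shell_meas n (m + 1))]
    apply lintegral_mono
    intro z
    beta_reduce
    by_cases hz : z ∈ shell n (m + 1)
    · rw [indicator_of_mem hz, indicator_of_mem (sc_mem hz)]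
    · rw [indicator_of_notMem hz]
      exact zero_le
  refine h1.trans (le_of_eq ?_)
  have hmeas : Measurable (fun z : Cn n => sc m • z) := by fun_prop
  rw [← lintegral_map (hH.indicator (shell_meas n m)) hmeas]
  have e : (fun z : Cn n => sc m • z) = (sc m • ·) := rfl
  rw [e, hmap, lintegral_smul_measure, lintegral_indicator (shell_meas n m),
    abs_of_pos (by positivity)]
  rfl

theorem cover_int {G : Cn n → ℝ≥0∞} :
    ∫⁻ z, G z ≤ ∑' m, ∫⁻ z in shell n m, G z := by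
  have h : (⋃ m, shell n m) = (univ : Set (Cn n)) := by
    apply eq_univ_of_forall
    intro z
    rw [mem_iUnion]
    refine ⟨⌊‖z‖ ^ 2⌋₊, Nat.floor_le (by positivity), Nat.lt_floor_add_one _⟩
  rw [← setLIntegral_univ, ← h]
  exact lintegral_iUnion_le _ _

theorem fat_sum {G : Cn n → ℝ≥0∞} (hG : Measurable G) :
    ∑' m, ∫⁻ z in fat n m, G z ≤ 60 * ∫⁻ z, G z := by
  have e : ∀ m, ∫⁻ z in fat n m, G z = ∫⁻ z, (fat n m).indicator G z := fun m =>
    (lintegral_indicator (fat_meas n m) G).symm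
  simp only [e]
  rw [← lintegral_tsum (fun m => (hG.indicator (fat_meas n m)).aemeasurable),
    ← lintegral_const_mul _ hG]
  apply lintegral_mono
  intro z
  beta_reduce
  set a : ℕ := ⌊‖z‖ ^ 2⌋₊ with ha
  have h1 : (a : ℝ) ≤ ‖z‖ ^ 2 := Nat.floor_le (by positivity)
  have h2 : ‖z‖ ^ 2 < a + 1 := Nat.lt_floor_add_one _
  rw [tsum_eq_sum (s := Finset.Icc (a - 29) (a + 30))]
  · calc ∑ m ∈ Finset.Icc (a - 29) (a + 30), (fat n m).indicator G z
        ≤ ∑ m ∈ Finset.Icc (a - 29) (a + 30), G z := by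
          apply Finset.sum_le_sum
          intro m _
          exact indicator_le_self _ _ _
      _ = ((Finset.Icc (a - 29) (a + 30)).card : ℝ≥0∞) * G z := by
          rw [Finset.sum_const, nsmul_eq_mul]
      _ ≤ 60 * G z := by
          gcongr
          rw [Nat.card_Icc]
          have : a + 30 + 1 - (a - 29) ≤ 60 := by omega
          exact_mod_cast this
  · intro m hm
    apply indicator_of_notMem
    intro hz
    apply hm
    have h3 := abs_le.1 (show |‖z‖ ^ 2 - m| ≤ 29 from hz)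
    rw [Finset.mem_Icc]
    constructor
    · have : (a : ℝ) < m + 30 := by linarith [h3.2]
      have : a < m + 30 := by exact_mod_cast this
      omega
    · have : (m : ℝ) < a + 31 := by linarith [h3.1]
      have : m < a + 31 := by exact_mod_cast this
      omega

theorem shell_ne_top {H : Cn n → ℝ≥0∞} (hH : Continuous H) (hHt : ∀ z, H z ≠ ∞) (m : ℕ) :
    ∫⁻ z in shell n m, H z ≠ ∞ := by
  have hsub : shell n m ⊆ closedBall 0 (m + 1) := by
    intro z hz
    rw [mem_closedBall, dist_zero_right]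
    have h2 := hz.2
    by_contra hcon
    have hcon' : (m : ℝ) + 1 < ‖z‖ := not_le.1 hcon
    have h3 : (0 : ℝ) ≤ m := by positivity
    nlinarith
  obtain ⟨x, _, hx⟩ := (isCompact_closedBall (0 : Cn n) ((m : ℝ) + 1)).exists_isMaxOn
    ⟨0, mem_closedBall_self (by positivity)⟩ hH.continuousOn
  have h1 : ∫⁻ z in shell n m, H z ≤ ∫⁻ z in closedBall (0 : Cn n) (m + 1), H x := by
    refine (lintegral_mono_set hsub).trans ?_
    apply setLIntegral_mono' isClosed_closedBall.measurableSet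
    intro z hz
    exact hx hz
  refine ne_top_of_le_ne_top ?_ h1
  rw [lintegral_const]
  refine ENNReal.mul_ne_top (hHt x) ?_
  simp only [Measure.restrict_apply MeasurableSet.univ, univ_inter]
  exact measure_closedBall_lt_top.ne

theorem rec_sum {x y : ℕ → ℝ≥0∞} {ρ : ℝ≥0∞} (hρ : ρ < 1) {m0 : ℕ} (hx : ∀ m, x m ≠ ∞)
    (hrec : ∀ m, m0 ≤ m → x (m + 1) ≤ ρ * x m + y m) (hy : ∑' m, y m ≠ ∞) :
    ∑' m, x m ≠ ∞ := by
  set Y := ∑' m, y m with hY
  have hr1 : 1 - ρ ≠ 0 := (tsub_pos_of_lt hρ).ne'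
  have hr2 : 1 - ρ ≠ ∞ := ENNReal.sub_ne_top ENNReal.one_ne_top
  set B := (x m0 + Y) * (1 - ρ)⁻¹ with hB
  have hBt : B ≠ ∞ := ENNReal.mul_ne_top (ENNReal.add_ne_top.2 ⟨hx m0, hy⟩) (ENNReal.inv_ne_top.2 hr1)
  have hBeq : x m0 + Y + ρ * B = B := by
    have h1 : B * (1 - ρ) = x m0 + Y := by
      rw [hB, mul_assoc, ENNReal.inv_mul_cancel hr1 hr2, mul_one]
    have h2 : (1 - ρ) + ρ = 1 := tsub_add_cancel_of_le hρ.le
    calc x m0 + Y + ρ * B = B * (1 - ρ) + B * ρ := by rw [h1, mul_comm ρ]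
      _ = B * ((1 - ρ) + ρ) := by rw [mul_add]
      _ = B := by rw [h2, mul_one]
  have hS : ∀ N, ∑ i ∈ Finset.range N, x (m0 + i) ≤ B := by
    intro N
    induction N with
    | zero => simp
    | succ N ih =>
      rw [Finset.sum_range_succ', add_zero, add_comm]
      calc x m0 + ∑ i ∈ Finset.range N, x (m0 + (i + 1))
          ≤ x m0 + ∑ i ∈ Finset.range N, (ρ * x (m0 + i) + y (m0 + i)) := by
            gcongr with i _
            exact hrec (m0 + i) (by omega)
        _ = x m0 + (ρ * ∑ i ∈ Finset.range N, x (m0 + i) + ∑ i ∈ Finset.range N, y (m0 + i)) := by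
            rw [Finset.sum_add_distrib, Finset.mul_sum]
        _ ≤ x m0 + (ρ * B + Y) := by
            gcongr
            calc ∑ i ∈ Finset.range N, y (m0 + i) ≤ ∑' i, y (m0 + i) := ENNReal.sum_le_tsum _
              _ ≤ Y := by
                rw [hY]
                exact ENNReal.tsum_comp_le_tsum_of_injective (f := fun i => m0 + i)
                  (fun a b h => by simpa using h) y
        _ = B := by rw [add_comm (ρ * B), ← add_assoc]; exact hBeq
  have h3 : ∑' i, x (m0 + i) ≤ B := by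
    rw [ENNReal.tsum_eq_iSup_nat]
    exact iSup_le hS
  have h4 : ∑' m, x m = ∑ i ∈ Finset.range m0, x i + ∑' i, x (i + m0) :=
    (ENNReal.summable.sum_add_tsum_nat_add' ).symm
  rw [h4]
  refine ENNReal.add_ne_top.2 ⟨?_, ?_⟩
  · exact (ENNReal.sum_lt_top.2 fun i _ => lt_top_iff_ne_top.2 (hx i)).ne
  · simp only [add_comm _ m0]
    exact ne_top_of_le_ne_top hBt h3

end Pool.Agent.U934.Fock
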