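import Pool.Agent.U934.Fock.Rev

/-!
# One step up and one step down in the order of the radial derivative
-/

set_option autoImplicit false

namespace Pool.Agent.U934.Fock

open MeasureTheory Metric Set Filter Topology
open scoped ENNReal NNReal

variable {n : ℕ}

theorem sc_tendsto : Tendsto (fun m : ℕ => sc m) atTop (𝓝 1) := by
  have h := (tendsto_natCast_div_add_atTop (1 : ℝ)).sqrt
  rw [Real.sqrt_one] at h
  exact h

/-- from `Rf` to `f`, finite exponent -/
theorem rev_step {p : ℝ} (hp : 0 < p) {α : ℝ} (hα : 0 < α) (k : ℕ) {f : Cn n → ℂ}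
    (hf : Differentiable ℂ f) (hR : Differentiable ℂ (radial f))
    (h : ∫⁻ z, hh α (k + 1) (radial f) z ^ p ≠ ∞) : ∫⁻ z, hh α k f z ^ p ≠ ∞ := by
  obtain ⟨C, hC, hloc⟩ := local_bound n hp hα.le (k + 1)
  set η : ℝ := Real.exp (α / 4) - 1 with hη
  have hη0 : 0 < η := by
    have := Real.add_one_lt_exp (show α / 4 ≠ 0 by positivity)
    have h2 : 0 < α / 4 := by positivity
    linarith
  set A : ℝ≥0∞ := ENNReal.ofReal (Real.exp (-(α / 4))) ^ p with hA
  set E : ℝ≥0∞ := ENNReal.ofReal ((1 + 1 / η) * 4) ^ p with hE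
  have hAt : A ≠ ∞ := ENNReal.rpow_ne_top_of_nonneg hp.le ENNReal.ofReal_ne_top
  have hEt : E ≠ ∞ := ENNReal.rpow_ne_top_of_nonneg hp.le ENNReal.ofReal_ne_top
  set X : ℕ → ℝ≥0∞ := fun m => ∫⁻ z in shell n m, hh α k f z ^ p with hX
  set Y : ℕ → ℝ≥0∞ := fun m => ∫⁻ z in fat n m, hh α (k + 1) (radial f) z ^ p with hY
  have hfm := hh_meas α k hf.continuous p
  have hrec : ∀ m, 1 ≤ m → X (m + 1) ≤
      A * ENNReal.ofReal ((sc m ^ dimR n)⁻¹) * X m + E * (C * Y (m + 1)) := by
    intro m hm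
    obtain ⟨Q, hQ1, hQ2⟩ := hloc (radial f) hR (m + 1) (by omega)
    have hpt : ∀ z ∈ shell n (m + 1), hh α k f z ^ p ≤
        A * hh α k f (sc m • z) ^ p + E * Q z := by
      intro z hz
      obtain ⟨t, ht, h1⟩ := point_scale hα.le k hf hR.continuous hm hz
      have h2 := hQ1 z hz (t • z) (sc_close hm hz ht)
      calc hh α k f z ^ p ≤ ENNReal.ofReal (Real.exp (-(α / 2)) *
            (wt α k (sc m • z) * ‖f (sc m • z)‖) +
              4 * (wt α (k + 1) z * ‖radial f (t • z)‖)) ^ p := by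
            unfold hh
            exact ENNReal.rpow_le_rpow (ENNReal.ofReal_le_ofReal h1) hp.le
        _ ≤ ENNReal.ofReal ((1 + η) * (Real.exp (-(α / 2)) *
              (wt α k (sc m • z) * ‖f (sc m • z)‖))) ^ p +
              ENNReal.ofReal ((1 + 1 / η) * (4 * (wt α (k + 1) z * ‖radial f (t • z)‖))) ^ p :=
            split_pow hp hη0
        _ = A * hh α k f (sc m • z) ^ p +
              E * ENNReal.ofReal (wt α (k + 1) z * ‖radial f (t • z)‖) ^ p := by
            congr 1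
            · have e : (1 + η) * (Real.exp (-(α / 2)) *
                  (wt α k (sc m • z) * ‖f (sc m • z)‖)) =
                  Real.exp (-(α / 4)) * (wt α k (sc m • z) * ‖f (sc m • z)‖) := by
                rw [← mul_assoc]
                congr 1
                rw [hη, add_sub_cancel, ← Real.exp_add]
                congr 1
                ring
              rw [e, ENNReal.ofReal_mul (Real.exp_pos _).le,
                ENNReal.mul_rpow_of_nonneg _ _ hp.le]
              rfl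
            · rw [← mul_assoc, ENNReal.ofReal_mul (by positivity),
                ENNReal.mul_rpow_of_nonneg _ _ hp.le]
        _ ≤ _ := by gcongr
    calc X (m + 1) ≤ ∫⁻ z in shell n (m + 1), (A * hh α k f (sc m • z) ^ p + E * Q z) :=
          setLIntegral_mono' (shell_meas n (m + 1)) hpt
      _ = A * (∫⁻ z in shell n (m + 1), hh α k f (sc m • z) ^ p) +
            E * (∫⁻ z in shell n (m + 1), Q z) := by
          have hsm : Measurable (fun z : Cn n => hh α k f (sc m • z) ^ p) :=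
            hfm.comp (by fun_prop)
          rw [lintegral_add_left (hsm.const_mul A), lintegral_const_mul _ hsm,
            lintegral_const_mul' _ _ hEt]
      _ ≤ A * (ENNReal.ofReal ((sc m ^ dimR n)⁻¹) * X m) + E * (C * Y (m + 1)) := by
          gcongr
          exact scale_int hm hfm
      _ = _ := by rw [mul_assoc]
  -- the ratio
  set a0 : ℝ := Real.exp (-(α / 4)) ^ p with ha0
  have ha1 : a0 < 1 := by
    apply Real.rpow_lt_one (Real.exp_pos _).le _ hp
    rw [Real.exp_lt_one_iff]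
    linarith
  have ha00 : 0 < a0 := Real.rpow_pos_of_pos (Real.exp_pos _) _
  have hAa : A = ENNReal.ofReal a0 := by
    rw [hA, ENNReal.ofReal_rpow_of_pos (Real.exp_pos _)]
  have htend : Tendsto (fun m : ℕ => a0 * (sc m ^ dimR n)⁻¹) atTop (𝓝 (a0 * (1 ^ dimR n)⁻¹)) := by
    apply Tendsto.const_mul
    apply Tendsto.inv₀
    · exact sc_tendsto.pow _
    · simp
  rw [one_pow, inv_one, mul_one] at htend
  have hev := htend.eventually_lt_const (show a0 < (a0 + 1) / 2 by linarith)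
  obtain ⟨m1, hm1⟩ := eventually_atTop.1 hev
  have hsum : ∑' m, X m ≠ ∞ := by
    refine rec_sum (ρ := ENNReal.ofReal ((a0 + 1) / 2)) (y := fun m => E * (C * Y (m + 1)))
      (m0 := max m1 1) ?_ ?_ ?_ ?_
    · rw [ENNReal.ofReal_lt_one]; linarith
    · intro m
      refine shell_ne_top ?_ (fun z => ENNReal.rpow_ne_top_of_nonneg hp.le (hh_ne_top _ _ _ _)) m
      exact ENNReal.continuous_rpow_const.comp (hh_cont α k hf.continuous)
    · intro m hm
      refine (hrec m ((le_max_right _ _).trans hm)).trans ?_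
      gcongr
      rw [hAa, ← ENNReal.ofReal_mul ha00.le]
      exact ENNReal.ofReal_le_ofReal (hm1 m ((le_max_left _ _).trans hm)).le
    · rw [ENNReal.tsum_mul_left, ENNReal.tsum_mul_left]
      refine ENNReal.mul_ne_top hEt (ENNReal.mul_ne_top hC ?_)
      have h1 : ∑' m, Y (m + 1) ≤ ∑' m, Y m :=
        ENNReal.tsum_comp_le_tsum_of_injective (f := fun i => i + 1)
                  (fun a b h => by simpa using h) Y
      have h2 : ∑' m, Y m ≤ 60 * ∫⁻ z, hh α (k + 1) (radial f) z ^ p :=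
        fat_sum (hh_meas α (k + 1) hR.continuous p)
      exact ne_top_of_le_ne_top (ENNReal.mul_ne_top (by norm_num) h) (h1.trans h2)
  exact ne_top_of_le_ne_top hsum cover_int

theorem bdd_ball {g : Cn n → ℝ} (hg : Continuous g) (r : ℝ) :
    ∃ B, ∀ z ∈ closedBall (0 : Cn n) r, g z ≤ B := by
  obtain ⟨B, hB⟩ := (isCompact_closedBall (0 : Cn n) r).bddAbove_image hg.continuousOn
  exact ⟨B, fun z hz => hB (mem_image_of_mem g hz)⟩

/-- from `Rf` to `f`, exponent infinity -/
theorem rev_step_inf {α : ℝ} (hα : 0 < α) (k : ℕ) {f : Cn n → ℂ}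
    (hf : Differentiable ℂ f) (hR : Differentiable ℂ (radial f))
    (h : ∃ B, ∀ z, wt α (k + 1) z * ‖radial f z‖ ≤ B) : ∃ B, ∀ z, wt α k z * ‖f z‖ ≤ B := by
  obtain ⟨B, hB⟩ := h
  obtain ⟨B0, hB0⟩ := bdd_ball (n := n) ((wt_cont α k).mul hf.continuous.norm) 2
  have hq : Real.exp (-(α / 2)) < 1 := by
    rw [Real.exp_lt_one_iff]; linarith
  have hq' : 0 < 1 - Real.exp (-(α / 2)) := by linarith
  set B' := max B0 (4 * B / (1 - Real.exp (-(α / 2)))) with hB'
  have h1 : 4 * B ≤ B' * (1 - Real.exp (-(α / 2))) := by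
    rw [← div_le_iff₀ hq']
    exact le_max_right _ _
  have hsh : ∀ m, ∀ z ∈ shell n (m + 1), wt α k z * ‖f z‖ ≤ B' := by
    intro m
    induction m with
    | zero =>
      intro z hz
      refine (hB0 z ?_).trans (le_max_left _ _)
      rw [mem_closedBall, dist_zero_right]
      have := hz.2
      norm_num at this
      nlinarith [norm_nonneg z]
    | succ m ih =>
      intro z hz
      obtain ⟨t, ht, h2⟩ := point_scale hα.le k hf hR.continuous (by omega : 1 ≤ m + 1) hz
      have h3 := ih _ (sc_mem hz)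
      have ht0 : 0 ≤ t := (sc_pos (by omega : 1 ≤ m + 1)).le.trans ht.1
      have h4 : wt α (k + 1) z * ‖radial f (t • z)‖ ≤ B := by
        refine le_trans ?_ (hB (t • z))
        gcongr
        apply wt_anti hα.le
        rw [norm_smul, Real.norm_eq_abs, abs_of_nonneg ht0]
        exact mul_le_of_le_one_left (norm_nonneg _) ht.2
      calc wt α k z * ‖f z‖ ≤ _ := h2
        _ ≤ Real.exp (-(α / 2)) * B' + 4 * B := by gcongr
        _ ≤ B' := by linarith
  refine ⟨B', fun z => ?_⟩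
  rcases lt_or_ge (‖z‖ ^ 2) 1 with hz | hz
  · refine (hB0 z ?_).trans (le_max_left _ _)
    rw [mem_closedBall, dist_zero_right]
    nlinarith [norm_nonneg z]
  · have hfl : 1 ≤ ⌊‖z‖ ^ 2⌋₊ := by
      rw [Nat.one_le_floor_iff]; exact hz
    obtain ⟨m, hm⟩ : ∃ m, ⌊‖z‖ ^ 2⌋₊ = m + 1 := ⟨⌊‖z‖ ^ 2⌋₊ - 1, by omega⟩
    apply hsh m
    rw [← hm]
    exact ⟨Nat.floor_le (by positivity), Nat.lt_floor_add_one _⟩

/-- the pointwise bound of the radial derivative -/
theorem fwd_point {α : ℝ} (k : ℕ) {f : Cn n → ℂ} (hf : Differentiable ℂ f) {m : ℕ} (hm : 1 ≤ m)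
    {z : Cn n} (hz : z ∈ shell n m) :
    ∃ u ∈ closedBall z (rad m), wt α (k + 1) z * ‖radial f z‖ ≤ wt α k z * ‖f u‖ := by
  have hr := rad_pos hm
  have h0 : (1 : ℝ) ≤ m := by exact_mod_cast hm
  have hz1 := hz.1
  have hz0 : 0 < ‖z‖ := by
    by_contra hcon
    have : ‖z‖ = 0 := le_antisymm (not_lt.1 hcon) (norm_nonneg _)
    rw [this] at hz1
    norm_num at hz1
    linarith
  obtain ⟨u, hu, hmax⟩ := (isCompact_closedBall z (rad m)).exists_isMaxOn
    ⟨z, mem_closedBall_self hr.le⟩ hf.continuous.norm.continuousOn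
  have hmax' : ∀ v ∈ closedBall z (rad m), ‖f v‖ ≤ ‖f u‖ := fun v hv => hmax hv
  refine ⟨u, hu, ?_⟩
  set g : ℂ → ℂ := fun ζ => f (z + ζ • z) with hg
  have hgd : Differentiable ℂ g := hf.comp ((differentiable_id.smul_const z).const_add z)
  have hder : deriv g 0 = radial f z := by
    have h1 : HasFDerivAt f (fderiv ℂ f z) (z + (0 : ℂ) • z) := by
      rw [zero_smul, add_zero]; exact (hf z).hasFDerivAt
    have h2 : HasDerivAt (fun ζ : ℂ => z + ζ • z) z 0 := by
      simpa using ((hasDerivAt_id (0 : ℂ)).smul_const z).const_add z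
    exact (h1.comp_hasDerivAt (0 : ℂ) h2).deriv
  have hR0 : 0 < rad m / ‖z‖ := by positivity
  have hb := Complex.norm_deriv_le_of_forall_mem_sphere_norm_le (C := ‖f u‖) hR0
    (hgd.diffContOnCl (s := ball (0 : ℂ) (rad m / ‖z‖))) (by
      intro ζ hζ
      apply hmax'
      rw [mem_closedBall, dist_eq_norm, add_sub_cancel_left, norm_smul]
      rw [mem_sphere, dist_zero_right] at hζ
      rw [hζ, div_mul_cancel₀ _ hz0.ne'])
  rw [hder] at hb
  have e : wt α k z = (1 + ‖z‖ ^ 2) * wt α (k + 1) z := by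
    unfold wt; field_simp; ring
  have h3 : ‖z‖ / rad m ≤ 1 + ‖z‖ ^ 2 := by
    have h4 : Real.sqrt m ≤ ‖z‖ := by
      rw [Real.sqrt_le_left hz0.le]; exact hz1
    have h5 : ‖z‖ / rad m = ‖z‖ * Real.sqrt m / 2 := by
      unfold rad; field_simp
    rw [h5]
    nlinarith [sq_nonneg ‖z‖]
  calc wt α (k + 1) z * ‖radial f z‖ ≤ wt α (k + 1) z * (‖f u‖ / (rad m / ‖z‖)) := by
        have := (wt_pos α (k + 1) z).le
        gcongr
    _ = wt α (k + 1) z * ((‖z‖ / rad m) * ‖f u‖) := by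
        congr 1; field_simp
    _ ≤ wt α (k + 1) z * ((1 + ‖z‖ ^ 2) * ‖f u‖) := by
        have := (wt_pos α (k + 1) z).le
        gcongr
    _ = _ := by rw [e]; ring

/-- from `f` to `Rf`, finite exponent -/
theorem fwd_step {p : ℝ} (hp : 0 < p) {α : ℝ} (hα : 0 < α) (k : ℕ) {f : Cn n → ℂ}
    (hf : Differentiable ℂ f) (hR : Differentiable ℂ (radial f))
    (h : ∫⁻ z, hh α k f z ^ p ≠ ∞) : ∫⁻ z, hh α (k + 1) (radial f) z ^ p ≠ ∞ := by
  obtain ⟨C, hC, hloc⟩ := local_bound n hp hα.le k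
  have hsum : ∑' m, ∫⁻ z in shell n m, hh α (k + 1) (radial f) z ^ p ≠ ∞ := by
    refine rec_sum (ρ := 0) (y := fun m => C * ∫⁻ z in fat n (m + 1), hh α k f z ^ p)
      (m0 := 0) (by norm_num) ?_ ?_ ?_
    · intro m
      refine shell_ne_top ?_ (fun z => ENNReal.rpow_ne_top_of_nonneg hp.le (hh_ne_top _ _ _ _)) m
      exact ENNReal.continuous_rpow_const.comp (hh_cont α (k + 1) hR.continuous)
    · intro m _
      rw [zero_mul, zero_add]
      obtain ⟨Q, hQ1, hQ2⟩ := hloc f hf (m + 1) (by omega)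
      refine (setLIntegral_mono' (shell_meas n (m + 1)) ?_).trans hQ2
      intro z hz
      obtain ⟨u, hu, h1⟩ := fwd_point (α := α) k hf (by omega : 1 ≤ m + 1) hz
      refine le_trans ?_ (hQ1 z hz u hu)
      unfold hh
      exact ENNReal.rpow_le_rpow (ENNReal.ofReal_le_ofReal h1) hp.le
    · rw [ENNReal.tsum_mul_left]
      refine ENNReal.mul_ne_top hC ?_
      have h1 : ∑' m, ∫⁻ z in fat n (m + 1), hh α k f z ^ p ≤
          ∑' m, ∫⁻ z in fat n m, hh α k f z ^ p :=
        ENNReal.tsum_comp_le_tsum_of_injective (f := fun i => i + 1)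
                  (fun a b h => by simpa using h) (fun m => ∫⁻ z in fat n m, hh α k f z ^ p)
      exact ne_top_of_le_ne_top (ENNReal.mul_ne_top (by norm_num) h)
        (h1.trans (fat_sum (hh_meas α k hf.continuous p)))
  exact ne_top_of_le_ne_top hsum cover_int

/-- from `f` to `Rf`, exponent infinity -/
theorem fwd_step_inf {α : ℝ} (hα : 0 < α) (k : ℕ) {f : Cn n → ℂ}
    (hf : Differentiable ℂ f) (hR : Differentiable ℂ (radial f))
    (h : ∃ B, ∀ z, wt α k z * ‖f z‖ ≤ B) :
    ∃ B, ∀ z, wt α (k + 1) z * ‖radial f z‖ ≤ B := by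
  obtain ⟨B, hB⟩ := h
  obtain ⟨B0, hB0⟩ := bdd_ball (n := n) ((wt_cont α (k + 1)).mul hR.continuous.norm) 2
  set M : ℝ := Real.exp (α * 28 / 2) * (1 + 28) ^ k with hM
  refine ⟨max B0 (M * B), fun z => ?_⟩
  rcases lt_or_ge (‖z‖ ^ 2) 1 with hz | hz
  · refine (hB0 z ?_).trans (le_max_left _ _)
    rw [mem_closedBall, dist_zero_right]
    nlinarith [norm_nonneg z]
  · have hfl : 1 ≤ ⌊‖z‖ ^ 2⌋₊ := by
      rw [Nat.one_le_floor_iff]; exact hz
    have hzs : z ∈ shell n ⌊‖z‖ ^ 2⌋₊ :=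
      ⟨Nat.floor_le (by positivity), Nat.lt_floor_add_one _⟩
    obtain ⟨u, hu, h1⟩ := fwd_point (α := α) k hf hfl hzs
    refine le_trans ?_ (le_max_right _ _)
    have hd : dist u z < 2 * rad ⌊‖z‖ ^ 2⌋₊ := by
      have := rad_pos hfl
      rw [mem_closedBall] at hu
      linarith
    have h2 := (abs_le.1 (geom hfl hzs hd)).2
    have h3 := wt_comp (n := n) hα.le k (K := 28) (by norm_num) (z := z) (w := u) (by linarith)
    calc wt α (k + 1) z * ‖radial f z‖ ≤ wt α k z * ‖f u‖ := h1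
      _ ≤ (M * wt α k u) * ‖f u‖ := by gcongr
      _ = M * (wt α k u * ‖f u‖) := by ring
      _ ≤ M * B := by
        gcongr
        exact hB u

end Pool.Agent.U934.Fock
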