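import Pool.Agent.U934.Fock.Mean

/-!
# Sub-mean value inequality for `|f|^p`, all `0 < p < ∞`
-/

set_option autoImplicit false

namespace Pool.Agent.U934.Fock

open MeasureTheory Metric Set
open scoped ENNReal NNReal

/-- real dimension -/
noncomputable abbrev dimR (n : ℕ) : ℕ := Module.finrank ℝ (Cn n)

theorem vol_ball (n : ℕ) {r : ℝ} (hr : 0 < r) :
    volume (ball (0 : Cn n) r) = ENNReal.ofReal (r ^ dimR n) * volume (ball (0 : Cn n) 1) :=
  Measure.addHaar_ball_of_pos volume 0 hr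

theorem vol_ball_ne_zero (n : ℕ) {r : ℝ} (hr : 0 < r) : volume (ball (0 : Cn n) r) ≠ 0 :=
  (measure_ball_pos volume _ hr).ne'

theorem vol_ball_ne_top (n : ℕ) (r : ℝ) : volume (ball (0 : Cn n) r) ≠ ∞ :=
  measure_ball_lt_top.ne

/-- the sub-mean value inequality for `0 < p ≤ 1` -/
theorem sub_mean_small {n : ℕ} {p : ℝ} (hp : 0 < p) (hp1 : p ≤ 1) {f : Cn n → ℂ}
    (hf : Differentiable ℂ f) (u : Cn n) {r : ℝ} (hr : 0 < r) :
    ‖f u‖ₑ ^ p * volume (ball (0 : Cn n) r) ≤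
      ENNReal.ofReal ((2 : ℝ) ^ ((dimR n : ℝ) / p)) * ∫⁻ v in ball u r, ‖f v‖ₑ ^ p := by
  set D : ℝ := (dimR n : ℝ) with hD
  have hD0 : 0 ≤ D := by positivity
  have hq0 : 0 ≤ D / p := by positivity
  by_cases hfu : f u = 0
  · simp [hfu, ENNReal.zero_rpow_of_pos hp]
  have hfu' : 0 < ‖f u‖ := norm_pos_iff.2 hfu
  -- the maximum point
  have hcont : ContinuousOn (fun v : Cn n => (r - ‖v - u‖) ^ (D / p) * ‖f v‖)
      (closedBall u r) := by
    apply ContinuousOn.mul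
    · apply ContinuousOn.rpow_const
      · fun_prop
      · intro x _; right; exact hq0
    · exact hf.continuous.norm.continuousOn
  obtain ⟨v0, hv0, hmax⟩ := (isCompact_closedBall u r).exists_isMaxOn
    ⟨u, mem_closedBall_self hr.le⟩ hcont
  have hmax' : ∀ v ∈ closedBall u r, (r - ‖v - u‖) ^ (D / p) * ‖f v‖ ≤
      (r - ‖v0 - u‖) ^ (D / p) * ‖f v0‖ := fun v hv => hmax hv
  have hu := hmax' u (mem_closedBall_self hr.le)
  simp only [sub_self, norm_zero, sub_zero] at hu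
  have hv0r : ‖v0 - u‖ ≤ r := by simpa [dist_eq_norm] using hv0
  set d : ℝ := r - ‖v0 - u‖ with hd
  have hd0 : 0 ≤ d := by linarith
  have hdr : d ≤ r := by have := norm_nonneg (v0 - u); linarith
  by_cases hdz : d = 0
  · -- the dimension must be zero
    by_cases hDz : D = 0
    · -- then the space is a point
      have hn : dimR n = 0 := by rw [hD] at hDz; exact Nat.cast_eq_zero.1 hDz
      have hsub : Subsingleton (Cn n) := Module.finrank_zero_iff.1 hn
      have : v0 = u := Subsingleton.elim _ _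
      rw [this] at hd
      simp at hd
      linarith
    · exfalso
      have hpos : 0 < D / p := by positivity
      rw [hdz, Real.zero_rpow hpos.ne', zero_mul] at hu
      have : 0 < r ^ (D / p) * ‖f u‖ := by positivity
      linarith
  have hdpos : 0 < d := lt_of_le_of_ne hd0 (Ne.symm hdz)
  set s : ℝ := d / 2 with hs
  have hs0 : 0 < s := by positivity
  have hfv0 : 0 < ‖f v0‖ := by
    by_contra hcon
    have h0 : ‖f v0‖ = 0 := le_antisymm (not_lt.1 hcon) (norm_nonneg _)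
    rw [h0, mul_zero] at hu
    have : 0 < r ^ (D / p) * ‖f u‖ := by positivity
    linarith
  have hsubset : ball v0 s ⊆ ball u r := by
    intro w hw
    rw [mem_ball, dist_eq_norm] at hw ⊢
    have : ‖w - u‖ ≤ ‖w - v0‖ + ‖v0 - u‖ := by
      have := norm_add_le (w - v0) (v0 - u)
      simpa using this
    linarith
  -- the local bound
  have hloc : ∀ w ∈ ball v0 s, ‖f w‖ ≤ 2 ^ (D / p) * ‖f v0‖ := by
    intro w hw
    have hw' : ‖w - v0‖ < s := by simpa [dist_eq_norm] using hw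
    have h1 : ‖w - u‖ ≤ ‖w - v0‖ + ‖v0 - u‖ := by
      have := norm_add_le (w - v0) (v0 - u)
      simpa using this
    have h2 : s ≤ r - ‖w - u‖ := by linarith
    have h3 := hmax' w (ball_subset_closedBall (hsubset hw))
    have h4 : s ^ (D / p) * ‖f w‖ ≤ d ^ (D / p) * ‖f v0‖ :=
      (mul_le_mul_of_nonneg_right (Real.rpow_le_rpow hs0.le h2 hq0) (norm_nonneg _)).trans h3
    have h5 : d = 2 * s := by rw [hs]; ring
    rw [h5, Real.mul_rpow (by norm_num) hs0.le] at h4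
    have h6 : 0 < s ^ (D / p) := Real.rpow_pos_of_pos hs0 _
    have h7 : s ^ (D / p) * ‖f w‖ ≤ s ^ (D / p) * (2 ^ (D / p) * ‖f v0‖) := by
      linarith
    exact le_of_mul_le_mul_left h7 h6
  set M : ℝ := 2 ^ (D / p) * ‖f v0‖ with hM
  have hM0 : 0 < M := by positivity
  -- mean value at v0
  have h1 := mean_ball hf v0 s
  have h2 : ∫⁻ v in ball v0 s, ‖f v‖ₑ ≤
      ENNReal.ofReal M ^ (1 - p) * ∫⁻ v in ball v0 s, ‖f v‖ₑ ^ p := by
    rw [← lintegral_const_mul' _ _ (ENNReal.rpow_ne_top_of_nonneg (by linarith) ENNReal.ofReal_ne_top)]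
    apply setLIntegral_mono' measurableSet_ball
    intro v hv
    have hle : ‖f v‖ₑ ≤ ENNReal.ofReal M := by
      rw [← ofReal_norm]
      exact ENNReal.ofReal_le_ofReal (hloc v hv)
    calc ‖f v‖ₑ = ‖f v‖ₑ ^ ((1 - p) + p) := by simp
      _ = ‖f v‖ₑ ^ (1 - p) * ‖f v‖ₑ ^ p :=
          ENNReal.rpow_add_of_nonneg _ _ (by linarith) hp.le
      _ ≤ ENNReal.ofReal M ^ (1 - p) * ‖f v‖ₑ ^ p := by
          gcongr
  have h3 : ∫⁻ v in ball v0 s, ‖f v‖ₑ ^ p ≤ ∫⁻ v in ball u r, ‖f v‖ₑ ^ p :=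
    lintegral_mono_set hsubset
  set J := ∫⁻ v in ball u r, ‖f v‖ₑ ^ p with hJ
  have h4 : ‖f v0‖ₑ * volume (ball (0 : Cn n) s) ≤ ENNReal.ofReal M ^ (1 - p) * J :=
    h1.trans (h2.trans (by gcongr))
  -- bring everything together
  set B := volume (ball (0 : Cn n) 1) with hB
  rw [vol_ball n hs0] at h4
  rw [vol_ball n hr]
  rw [← ofReal_norm, ENNReal.ofReal_rpow_of_pos hM0] at h4
  rw [← ofReal_norm, ENNReal.ofReal_rpow_of_pos hfu', ← mul_assoc, ← ENNReal.ofReal_mul (by positivity)]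
  rw [← mul_assoc, ← ENNReal.ofReal_mul (by positivity)] at h4
  -- real inequality
  have h5 : ‖f u‖ ^ p * r ^ dimR n ≤ d ^ dimR n * ‖f v0‖ ^ p := by
    have h6 := Real.rpow_le_rpow (by positivity) hu hp.le
    rw [Real.mul_rpow (by positivity) (by positivity), Real.mul_rpow (by positivity) (by positivity),
      ← Real.rpow_mul hr.le, ← Real.rpow_mul hdpos.le, div_mul_cancel₀ _ hp.ne', hD,
      Real.rpow_natCast, Real.rpow_natCast] at h6
    linarith
  have h6 : d ^ dimR n * ‖f v0‖ ^ p =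
      (2 ^ (D / p)) * (M ^ (1 - p))⁻¹ * (‖f v0‖ * s ^ dimR n) := by
    have e1 : d = 2 * s := by rw [hs]; ring
    rw [e1, mul_pow, hM, Real.mul_rpow (by positivity) (by positivity)]
    rw [← Real.rpow_natCast (2 : ℝ), ← hD]
    have e2 : ‖f v0‖ = ‖f v0‖ ^ (1 - p) * ‖f v0‖ ^ p := by
      rw [← Real.rpow_add hfv0]; simp
    have e3 : (2 : ℝ) ^ (D / p) = (2 ^ (D / p)) ^ (1 - p) * 2 ^ D := by
      rw [← Real.rpow_mul (by norm_num), ← Real.rpow_add (by norm_num)]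
      congr 1
      field_simp
      ring
    have h7 : ‖f v0‖ ^ (1 - p) ≠ 0 := (Real.rpow_pos_of_pos hfv0 _).ne'
    have h8 : ((2 : ℝ) ^ (D / p)) ^ (1 - p) ≠ 0 := by positivity
    rw [mul_inv]
    calc 2 ^ D * s ^ dimR n * ‖f v0‖ ^ p
        = (((2 : ℝ) ^ (D / p)) ^ (1 - p) * 2 ^ D) * (((2 : ℝ) ^ (D / p)) ^ (1 - p))⁻¹ *
          ((‖f v0‖ ^ (1 - p))⁻¹ * (‖f v0‖ ^ (1 - p) * ‖f v0‖ ^ p)) * s ^ dimR n := by
          field_simp
      _ = _ := by
          rw [← e2, ← e3]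
          ring
  have hM1 : 0 < M ^ (1 - p) := Real.rpow_pos_of_pos hM0 _
  calc ENNReal.ofReal (‖f u‖ ^ p * r ^ dimR n) * B
      ≤ ENNReal.ofReal ((2 ^ (D / p)) * (M ^ (1 - p))⁻¹ * (‖f v0‖ * s ^ dimR n)) * B := by
        refine mul_le_mul_left (ENNReal.ofReal_le_ofReal ?_) _
        rw [← h6]; exact h5
    _ = ENNReal.ofReal ((2 ^ (D / p)) * (M ^ (1 - p))⁻¹) *
          (ENNReal.ofReal (‖f v0‖ * s ^ dimR n) * B) := by
        rw [ENNReal.ofReal_mul (by positivity), mul_assoc]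
    _ ≤ ENNReal.ofReal ((2 ^ (D / p)) * (M ^ (1 - p))⁻¹) *
          (ENNReal.ofReal (M ^ (1 - p)) * J) := by gcongr
    _ = ENNReal.ofReal (2 ^ (D / p)) * J := by
        rw [← mul_assoc, ← ENNReal.ofReal_mul (by positivity), mul_assoc,
          inv_mul_cancel₀ hM1.ne', mul_one]

/-- the sub-mean value inequality for all `0 < p < ∞` -/
theorem sub_mean (n : ℕ) {p : ℝ} (hp : 0 < p) : ∃ C : ℝ≥0∞, C ≠ ∞ ∧
    ∀ f : Cn n → ℂ, Differentiable ℂ f → ∀ u : Cn n, ∀ r : ℝ, 0 < r →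
      ‖f u‖ₑ ^ p * volume (ball (0 : Cn n) r) ≤ C * ∫⁻ v in ball u r, ‖f v‖ₑ ^ p := by
  obtain ⟨k, hk⟩ := exists_nat_ge (max p 1)
  have hk1 : (1 : ℝ) ≤ k := (le_max_right _ _).trans hk
  have hkp : p ≤ k := (le_max_left _ _).trans hk
  have hk0 : (0 : ℝ) < k := by linarith
  refine ⟨ENNReal.ofReal ((2 : ℝ) ^ ((dimR n : ℝ) / (p / k))), ENNReal.ofReal_ne_top,
    fun f hf u r hr => ?_⟩
  have h := sub_mean_small (p := p / k) (by positivity) (by rw [div_le_one hk0]; exact hkp)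
    (hf.pow k) u hr
  have e : ∀ v, ‖(f ^ k) v‖ₑ ^ (p / k) = ‖f v‖ₑ ^ p := by
    intro v
    rw [Pi.pow_apply, enorm_pow, ← ENNReal.rpow_natCast, ← ENNReal.rpow_mul]
    congr 1
    field_simp
  simp only [e] at h
  exact h

end Pool.Agent.U934.Fock
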