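import Pool.Agent.U934.Fock.Sub

/-!
# Weights, shells and the local integral bound
-/

set_option autoImplicit false

namespace Pool.Agent.U934.Fock

open MeasureTheory Metric Set
open scoped ENNReal NNReal

variable {n : ℕ}

/-- the weight `exp(-α|z|²/2) / (1+|z|²)^k` -/
noncomputable def wt (α : ℝ) (k : ℕ) (z : Cn n) : ℝ :=
  Real.exp (-(α * ‖z‖ ^ 2 / 2)) / (1 + ‖z‖ ^ 2) ^ k

theorem wt_pos (α : ℝ) (k : ℕ) (z : Cn n) : 0 < wt α k z := by
  unfold wt; positivity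

theorem wt_cont (α : ℝ) (k : ℕ) : Continuous (wt α k : Cn n → ℝ) := by
  unfold wt
  apply Continuous.div
  · fun_prop
  · fun_prop
  · intro z; positivity

theorem wt_comp {α : ℝ} (hα : 0 ≤ α) (k : ℕ) {K : ℝ} (hK : 0 ≤ K) {z w : Cn n}
    (h : ‖w‖ ^ 2 ≤ ‖z‖ ^ 2 + K) :
    wt α k z ≤ Real.exp (α * K / 2) * (1 + K) ^ k * wt α k w := by
  unfold wt
  have h1 : Real.exp (-(α * ‖z‖ ^ 2 / 2)) ≤
      Real.exp (α * K / 2) * Real.exp (-(α * ‖w‖ ^ 2 / 2)) := by
    rw [← Real.exp_add]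
    apply Real.exp_le_exp.2
    nlinarith [mul_le_mul_of_nonneg_left h hα]
  have h2 : (1 + ‖w‖ ^ 2) ^ k ≤ (1 + K) ^ k * (1 + ‖z‖ ^ 2) ^ k := by
    rw [← mul_pow]
    apply pow_le_pow_left₀ (by positivity)
    nlinarith [mul_nonneg hK (sq_nonneg ‖z‖)]
  have hz : 0 < (1 + ‖z‖ ^ 2) ^ k := by positivity
  have hw : 0 < (1 + ‖w‖ ^ 2) ^ k := by positivity
  rw [div_le_iff₀ hz]
  calc Real.exp (-(α * ‖z‖ ^ 2 / 2))
      ≤ Real.exp (α * K / 2) * Real.exp (-(α * ‖w‖ ^ 2 / 2)) := h1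
    _ = Real.exp (α * K / 2) * (Real.exp (-(α * ‖w‖ ^ 2 / 2)) / (1 + ‖w‖ ^ 2) ^ k) *
          (1 + ‖w‖ ^ 2) ^ k := by
        field_simp
    _ ≤ Real.exp (α * K / 2) * (Real.exp (-(α * ‖w‖ ^ 2 / 2)) / (1 + ‖w‖ ^ 2) ^ k) *
          ((1 + K) ^ k * (1 + ‖z‖ ^ 2) ^ k) := by gcongr
    _ = _ := by ring

theorem wt_anti {α : ℝ} (hα : 0 ≤ α) (k : ℕ) {z w : Cn n} (h : ‖w‖ ≤ ‖z‖) :
    wt α k z ≤ wt α k w := by
  have h1 : ‖w‖ ^ 2 ≤ ‖z‖ ^ 2 + 0 := by
    rw [add_zero]; exact pow_le_pow_left₀ (norm_nonneg _) h 2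
  simpa using wt_comp hα k le_rfl h1

/-- the weighted modulus -/
noncomputable def hh (α : ℝ) (k : ℕ) (F : Cn n → ℂ) (z : Cn n) : ℝ≥0∞ :=
  ENNReal.ofReal (wt α k z * ‖F z‖)

theorem hh_cont (α : ℝ) (k : ℕ) {F : Cn n → ℂ} (hF : Continuous F) :
    Continuous (fun z => hh α k F z) :=
  ENNReal.continuous_ofReal.comp ((wt_cont α k).mul hF.norm)

theorem hh_meas (α : ℝ) (k : ℕ) {F : Cn n → ℂ} (hF : Continuous F) (p : ℝ) :
    Measurable (fun z => hh α k F z ^ p) :=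
  ((hh_cont α k hF).measurable).pow_const p

theorem hh_ne_top (α : ℝ) (k : ℕ) (F : Cn n → ℂ) (z : Cn n) : hh α k F z ≠ ∞ :=
  ENNReal.ofReal_ne_top

/-- the shells `m ≤ |z|² < m+1` -/
def shell (n m : ℕ) : Set (Cn n) := {z | (m : ℝ) ≤ ‖z‖ ^ 2 ∧ ‖z‖ ^ 2 < m + 1}

/-- the enlarged shells -/
def fat (n m : ℕ) : Set (Cn n) := {z | |‖z‖ ^ 2 - m| ≤ 29}

theorem shell_meas (n m : ℕ) : MeasurableSet (shell n m) := by
  have h1 : MeasurableSet {z : Cn n | (m : ℝ) ≤ ‖z‖ ^ 2} :=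
    (isClosed_le continuous_const (by fun_prop)).measurableSet
  have h2 : MeasurableSet {z : Cn n | ‖z‖ ^ 2 < (m : ℝ) + 1} :=
    (isOpen_lt (by fun_prop) continuous_const).measurableSet
  exact h1.inter h2

theorem fat_meas (n m : ℕ) : MeasurableSet (fat n m) := by
  unfold fat
  exact (isClosed_le (by fun_prop) continuous_const).measurableSet

/-- the radius attached to a shell -/
noncomputable def rad (m : ℕ) : ℝ := 2 / Real.sqrt m

theorem rad_pos {m : ℕ} (hm : 1 ≤ m) : 0 < rad m := by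
  have : (0 : ℝ) < m := by exact_mod_cast hm
  unfold rad; positivity

theorem rad_le {m : ℕ} (hm : 1 ≤ m) : rad m ≤ 2 := by
  have h1 : (1 : ℝ) ≤ m := by exact_mod_cast hm
  have : 1 ≤ Real.sqrt m := Real.one_le_sqrt.2 h1
  unfold rad
  rw [div_le_iff₀ (by linarith)]
  linarith

theorem rad_mul {m : ℕ} (hm : 1 ≤ m) {z : Cn n} (hz : z ∈ shell n m) : rad m * ‖z‖ ≤ 3 := by
  have h1 : (1 : ℝ) ≤ m := by exact_mod_cast hm
  have h2 : 1 ≤ Real.sqrt m := Real.one_le_sqrt.2 h1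
  have h3 : Real.sqrt m ^ 2 = m := Real.sq_sqrt (by linarith)
  have h4 : ‖z‖ ≤ 3 / 2 * Real.sqrt m := by
    apply le_of_sq_le_sq _ (by positivity)
    rw [mul_pow, h3]
    have := hz.2
    nlinarith
  unfold rad
  rw [div_mul_eq_mul_div, div_le_iff₀ (by linarith)]
  linarith

theorem geom {m : ℕ} (hm : 1 ≤ m) {z w : Cn n} (hz : z ∈ shell n m) (hw : dist w z < 2 * rad m) :
    |‖w‖ ^ 2 - ‖z‖ ^ 2| ≤ 28 := by
  have h1 := rad_mul hm hz
  have h2 := rad_le hm
  have h3 := rad_pos hm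
  have h4 : |‖w‖ - ‖z‖| ≤ 2 * rad m := by
    rw [dist_eq_norm] at hw
    exact (abs_norm_sub_norm_le w z).trans hw.le
  have h5 : ‖w‖ ^ 2 - ‖z‖ ^ 2 = (‖w‖ - ‖z‖) * (‖w‖ + ‖z‖) := by ring
  rw [h5, abs_mul, abs_of_nonneg (by positivity : 0 ≤ ‖w‖ + ‖z‖)]
  have h6 : ‖w‖ + ‖z‖ ≤ 2 * ‖z‖ + 2 * rad m := by
    have := (abs_le.1 h4).2
    linarith
  calc |‖w‖ - ‖z‖| * (‖w‖ + ‖z‖) ≤ (2 * rad m) * (2 * ‖z‖ + 2 * rad m) := by gcongr
    _ ≤ 28 := by nlinarith

theorem mem_fat {m : ℕ} (hm : 1 ≤ m) {z w : Cn n} (hz : z ∈ shell n m)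
    (hw : dist w z < 2 * rad m) : w ∈ fat n m := by
  have h1 := abs_le.1 (geom hm hz hw)
  change |‖w‖ ^ 2 - m| ≤ 29
  rw [abs_le]
  constructor <;> linarith [hz.1, hz.2, h1.1, h1.2]

theorem local_int {m : ℕ} (hm : 1 ≤ m) {G : Cn n → ℝ≥0∞} (hG : Measurable G) :
    ∫⁻ z in shell n m, ∫⁻ w in ball z (2 * rad m), G w ≤
      volume (ball (0 : Cn n) (2 * rad m)) * ∫⁻ w in fat n m, G w := by
  have hS : MeasurableSet {x : Cn n × Cn n | dist x.2 x.1 < 2 * rad m} :=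
    (isOpen_lt (by fun_prop) continuous_const).measurableSet
  have hAE : AEMeasurable (Function.uncurry fun z w : Cn n =>
      {x : Cn n × Cn n | dist x.2 x.1 < 2 * rad m}.indicator (fun x => G x.2) (z, w))
      ((volume.restrict (shell n m)).prod volume) := by
    have : Measurable ({x : Cn n × Cn n | dist x.2 x.1 < 2 * rad m}.indicator
      (fun x : Cn n × Cn n => G x.2)) := (hG.comp measurable_snd).indicator hS
    exact this.aemeasurable
  have e1 : ∀ z ∈ shell n m, ∫⁻ w in ball z (2 * rad m), G w =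
      ∫⁻ w, {x : Cn n × Cn n | dist x.2 x.1 < 2 * rad m}.indicator (fun x => G x.2) (z, w) := by
    intro z _
    rw [← lintegral_indicator measurableSet_ball]
    rfl
  rw [setLIntegral_congr_fun (shell_meas n m) e1]
  rw [lintegral_lintegral_swap hAE]
  rw [← lintegral_indicator (fat_meas n m), ← lintegral_const_mul _ (hG.indicator (fat_meas n m))]
  apply lintegral_mono
  intro w
  beta_reduce
  by_cases hw : w ∈ fat n m
  · rw [indicator_of_mem hw]
    calc ∫⁻ z in shell n m, {x : Cn n × Cn n | dist x.2 x.1 < 2 * rad m}.indicator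
            (fun x => G x.2) (z, w)
        ≤ ∫⁻ z, {x : Cn n × Cn n | dist x.2 x.1 < 2 * rad m}.indicator
            (fun x => G x.2) (z, w) := setLIntegral_le_lintegral _ _
      _ = ∫⁻ z, (ball w (2 * rad m)).indicator (fun _ => G w) z := by
          apply lintegral_congr
          intro z
          by_cases hd : dist w z < 2 * rad m
          · rw [indicator_of_mem (show (z, w) ∈ {x : Cn n × Cn n | dist x.2 x.1 < 2 * rad m} from hd),
              indicator_of_mem (show z ∈ ball w (2 * rad m) by rw [mem_ball, dist_comm]; exact hd)]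
          · rw [indicator_of_notMem
                (show (z, w) ∉ {x : Cn n × Cn n | dist x.2 x.1 < 2 * rad m} from hd),
              indicator_of_notMem
                (show z ∉ ball w (2 * rad m) by rw [mem_ball, dist_comm]; exact hd)]
      _ = G w * volume (ball w (2 * rad m)) := by
          rw [lintegral_indicator measurableSet_ball, lintegral_const]
          simp
      _ = volume (ball (0 : Cn n) (2 * rad m)) * G w := by
          rw [mul_comm, Measure.addHaar_ball_center]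
      _ ≤ _ := le_rfl
  · rw [indicator_of_notMem hw, mul_zero, nonpos_iff_eq_zero]
    rw [← lintegral_zero (μ := volume.restrict (shell n m))]
    apply setLIntegral_congr_fun (shell_meas n m)
    intro z hz
    apply indicator_of_notMem
    intro hd
    exact hw (mem_fat hm hz hd)

/-- the local bound -/
theorem local_bound (n : ℕ) {p : ℝ} (hp : 0 < p) {α : ℝ} (hα : 0 ≤ α) (k : ℕ) :
    ∃ C : ℝ≥0∞, C ≠ ∞ ∧ ∀ F : Cn n → ℂ, Differentiable ℂ F → ∀ m : ℕ, 1 ≤ m →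
      ∃ Q : Cn n → ℝ≥0∞, (∀ z ∈ shell n m, ∀ u ∈ closedBall z (rad m),
        ENNReal.ofReal (wt α k z * ‖F u‖) ^ p ≤ Q z) ∧
        ∫⁻ z in shell n m, Q z ≤ C * ∫⁻ w in fat n m, hh α k F w ^ p := by
  obtain ⟨C, hC, hsub⟩ := sub_mean n hp
  set M : ℝ≥0∞ := ENNReal.ofReal (Real.exp (α * 28 / 2) * (1 + 28) ^ k) with hM
  have hMt : M ≠ ∞ := ENNReal.ofReal_ne_top
  refine ⟨C * M ^ p * ENNReal.ofReal (2 ^ dimR n), ?_, fun F hF m hm => ?_⟩
  · exact ENNReal.mul_ne_top (ENNReal.mul_ne_top hC (ENNReal.rpow_ne_top_of_nonneg hp.le hMt))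
      ENNReal.ofReal_ne_top
  have hr := rad_pos hm
  set V := volume (ball (0 : Cn n) (rad m)) with hV
  have hV0 : V ≠ 0 := vol_ball_ne_zero n hr
  have hVt : V ≠ ∞ := vol_ball_ne_top n _
  have hFc := hF.continuous
  refine ⟨fun z => C * M ^ p * V⁻¹ * ∫⁻ w in ball z (2 * rad m), hh α k F w ^ p, ?_, ?_⟩
  · intro z hz u hu
    have h1 := hsub F hF u (rad m) hr
    have h2 : ‖F u‖ₑ ^ p ≤ C * V⁻¹ * ∫⁻ v in ball u (rad m), ‖F v‖ₑ ^ p := by
      have h3 := (ENNReal.le_div_iff_mul_le (Or.inl hV0) (Or.inl hVt)).2 h1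
      rw [div_eq_mul_inv] at h3
      rw [mul_right_comm]
      exact h3
    have h4 : ball u (rad m) ⊆ ball z (2 * rad m) := by
      apply ball_subset_ball'
      rw [mem_closedBall] at hu
      linarith
    have h5 : ENNReal.ofReal (wt α k z) ^ p * ∫⁻ v in ball z (2 * rad m), ‖F v‖ₑ ^ p ≤
        M ^ p * ∫⁻ w in ball z (2 * rad m), hh α k F w ^ p := by
      rw [← lintegral_const_mul _ (hFc.enorm.measurable.pow_const p),
        ← lintegral_const_mul _ (hh_meas α k hFc p)]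
      apply setLIntegral_mono' measurableSet_ball
      intro w hw
      have h6 := (abs_le.1 (geom hm hz hw)).2
      have h7 := wt_comp (n := n) hα k (K := 28) (by norm_num) (z := z) (w := w) (by linarith)
      have h8 : ENNReal.ofReal (wt α k z) ≤ M * ENNReal.ofReal (wt α k w) := by
        rw [hM, ← ENNReal.ofReal_mul (by positivity)]
        exact ENNReal.ofReal_le_ofReal h7
      unfold hh
      rw [ENNReal.ofReal_mul (wt_pos _ _ _).le, ofReal_norm, ENNReal.mul_rpow_of_nonneg _ _ hp.le,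
        ← mul_assoc, ← ENNReal.mul_rpow_of_nonneg _ _ hp.le,
        ← ENNReal.mul_rpow_of_nonneg _ _ hp.le, ← ENNReal.mul_rpow_of_nonneg _ _ hp.le]
      exact ENNReal.rpow_le_rpow (mul_le_mul_left h8 _) hp.le
    rw [ENNReal.ofReal_mul (wt_pos _ _ _).le, ofReal_norm, ENNReal.mul_rpow_of_nonneg _ _ hp.le]
    calc ENNReal.ofReal (wt α k z) ^ p * ‖F u‖ₑ ^ p
        ≤ ENNReal.ofReal (wt α k z) ^ p *
          (C * V⁻¹ * ∫⁻ v in ball z (2 * rad m), ‖F v‖ₑ ^ p) := by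
          gcongr
          exact h2.trans (mul_le_mul_right (lintegral_mono_set h4) _)
      _ = C * V⁻¹ * (ENNReal.ofReal (wt α k z) ^ p *
            ∫⁻ v in ball z (2 * rad m), ‖F v‖ₑ ^ p) := by ring
      _ ≤ C * V⁻¹ * (M ^ p * ∫⁻ w in ball z (2 * rad m), hh α k F w ^ p) := by gcongr
      _ = _ := by ring
  · have hct : C * M ^ p * V⁻¹ ≠ ∞ :=
      ENNReal.mul_ne_top (ENNReal.mul_ne_top hC (ENNReal.rpow_ne_top_of_nonneg hp.le hMt))
        (ENNReal.inv_ne_top.2 hV0)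
    rw [lintegral_const_mul' _ _ hct]
    calc C * M ^ p * V⁻¹ * ∫⁻ z in shell n m, ∫⁻ w in ball z (2 * rad m), hh α k F w ^ p
        ≤ C * M ^ p * V⁻¹ * (volume (ball (0 : Cn n) (2 * rad m)) *
            ∫⁻ w in fat n m, hh α k F w ^ p) := by
          gcongr
          exact local_int hm (hh_meas α k hFc p)
      _ = C * M ^ p * ENNReal.ofReal (2 ^ dimR n) * (V⁻¹ * V) *
            ∫⁻ w in fat n m, hh α k F w ^ p := by
          rw [vol_ball n (by positivity : 0 < 2 * rad m), mul_pow,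
            ENNReal.ofReal_mul (by positivity), mul_assoc (ENNReal.ofReal _),
            ← vol_ball n hr, ← hV]
          ring
      _ = _ := by rw [ENNReal.inv_mul_cancel hV0 hVt, mul_one]

end Pool.Agent.U934.Fock
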